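import Pool.Agent.H14.AVS.S1

/-!
# AVS, module CON: a second quadratic form has at most four common zeros with the cone
-/

set_option autoImplicit false

namespace Pool.AVS

open Polynomial Matrix Pool.AVR

namespace CON

theorem cf {K : Type} [Field K] (a0 a1 a2 a3 a4 : K)
    (h : (C a0 + C a1 * X + C a2 * X ^ 2 + C a3 * X ^ 3 + C a4 * X ^ 4 : K[X]) = 0) :
    a0 = 0 ∧ a1 = 0 ∧ a2 = 0 ∧ a3 = 0 ∧ a4 = 0 := by
  have e : ∀ n, (C a0 + C a1 * X + C a2 * X ^ 2 + C a3 * X ^ 3 + C a4 * X ^ 4 : K[X]).coeff n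
      = 0 := by
    intro n
    rw [h, coeff_zero]
  have e0 := e 0
  have e1 := e 1
  have e2 := e 2
  have e3 := e 3
  have e4 := e 4
  simp [coeff_X, coeff_X_pow, coeff_C] at e0 e1 e2 e3 e4
  exact ⟨e0, e1, e2, e3, e4⟩

end CON

theorem con_thm : CONStmt := by
  intro K _ h2 Q hQ hn
  have h4 : (4 : K) ≠ 0 := by
    have : (4 : K) = 2 * 2 := by norm_num
    rw [this]
    exact mul_ne_zero h2 h2
  have s01 : Q 1 0 = Q 0 1 := by
    have := congrFun (congrFun hQ 0) 1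
    simpa using this
  have s02 : Q 2 0 = Q 0 2 := by
    have := congrFun (congrFun hQ 0) 2
    simpa using this
  have s12 : Q 2 1 = Q 1 2 := by
    have := congrFun (congrFun hQ 1) 2
    simpa using this
  set p : K[X] := C (Q 0 0) + C (2 * Q 0 1) * X + C (Q 1 1 - Q 0 2) * X ^ 2 +
    C (-Q 1 2) * X ^ 3 + C (Q 2 2 / 4) * X ^ 4 with hp
  have hp0 : p ≠ 0 := by
    intro h
    apply hn
    obtain ⟨q00, c1, c2, c3, c4⟩ := CON.cf _ _ _ _ _ h
    have q01 : Q 0 1 = 0 := (mul_eq_zero.1 c1).resolve_left h2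
    have q11 : Q 1 1 = Q 0 2 := sub_eq_zero.1 c2
    have q12 : Q 1 2 = 0 := neg_eq_zero.1 c3
    have q22 : Q 2 2 = 0 := (div_eq_zero_iff.1 c4).resolve_right h4
    refine ⟨Q 0 2, ?_⟩
    ext i j
    fin_cases i <;> fin_cases j <;>
      simp [AA, q00, q01, q11, q12, q22, s01, s02, s12]
  refine (Polynomial.finite_setOf_isRoot hp0).subset ?_
  intro s hs
  have hs' : bil Q (zz 1 s) (zz 1 s) = 0 := hs
  change p.eval s = 0
  rw [← hs', hp]
  simp only [bil, zz, Matrix.mulVec, dotProduct, Fin.sum_univ_three, eval_add, eval_mul, eval_C,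
    eval_X, eval_pow]
  simp [s01, s02, s12]
  field_simp
  ring

end Pool.AVS
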