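import Pool.Agent.H14.AVS.S1

/-!
# AVS, module ISV: isotropic vectors of the antidiagonal form
-/

set_option autoImplicit false

namespace Pool.AVS

open Polynomial Matrix Pool.AVR

namespace ISV

theorem bil_AA {K : Type} [Field K] (u v : Fin 3 → K) :
    bil (AA K) u v = u 0 * v 2 + u 1 * v 1 + u 2 * v 0 := by
  simp [bil, AA, Matrix.mulVec, dotProduct, Fin.sum_univ_three]

theorem bil_zz {K : Type} [Field K] (h2 : (2 : K) ≠ 0) (r s r' s' : K) :
    bil (AA K) (zz r s) (zz r' s') = -(r * s' - r' * s) ^ 2 / 2 := by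
  rw [bil_AA]
  simp [zz]
  field_simp
  ring

theorem par {K : Type} [Field K] (h2 : (2 : K) ≠ 0) (z : Fin 3 → K) (hz : z ≠ 0)
    (h : bil (AA K) z z = 0) :
    ∃ t r s : K, t ≠ 0 ∧ (r ≠ 0 ∨ s ≠ 0) ∧ z = t • zz r s := by
  rw [bil_AA] at h
  by_cases h0 : z 0 = 0
  · have h1 : z 1 = 0 := by
      rw [h0] at h
      have : z 1 * z 1 = 0 := by linear_combination h
      exact mul_self_eq_zero.1 this
    have h3 : z 2 ≠ 0 := by
      intro h3
      apply hz
      funext i
      fin_cases i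
      · exact h0
      · exact h1
      · exact h3
    refine ⟨-2 * z 2, 0, 1, mul_ne_zero (neg_ne_zero.2 h2) h3, Or.inr one_ne_zero, ?_⟩
    funext i
    fin_cases i
    · simp [zz, h0]
    · simp [zz, h1]
    · simp [zz]
      field_simp
  · refine ⟨z 0, 1, z 1 / z 0, h0, Or.inl one_ne_zero, ?_⟩
    funext i
    fin_cases i
    · simp [zz]
    · simp [zz]
      field_simp
    · simp [zz]
      field_simp
      linear_combination h

theorem prop {K : Type} [Field K] (h2 : (2 : K) ≠ 0) (z z' : Fin 3 → K) (hz : z ≠ 0)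
    (hz' : z' ≠ 0) (h : bil (AA K) z z = 0) (h' : bil (AA K) z' z' = 0)
    (hh : bil (AA K) z z' = 0) : ∃ t : K, t ≠ 0 ∧ z' = t • z := by
  obtain ⟨t, r, s, ht, hrs, e⟩ := par h2 z hz h
  obtain ⟨t', r', s', ht', hrs', e'⟩ := par h2 z' hz' h'
  have key : t * t' * (-(r * s' - r' * s) ^ 2 / 2) = 0 := by
    rw [← bil_zz h2 r s r' s', ← hh, e, e', bil_AA, bil_AA]
    simp only [Pi.smul_apply, smul_eq_mul]
    ring
  have k2 : r * s' - r' * s = 0 := by
    have h3 := (mul_eq_zero.1 key).resolve_left (mul_ne_zero ht ht')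
    have h4 : (r * s' - r' * s) ^ 2 = 0 := by
      have : -(r * s' - r' * s) ^ 2 / 2 * 2 = 0 := by rw [h3, zero_mul]
      rw [div_mul_cancel₀ _ h2] at this
      linear_combination -this
    exact pow_eq_zero_iff (two_ne_zero) |>.1 h4
  -- `(r', s')` is a multiple of `(r, s)`
  obtain ⟨l, hl1, hl2⟩ : ∃ l : K, r' = l * r ∧ s' = l * s := by
    rcases hrs with hr | hs
    · refine ⟨r' / r, ?_, ?_⟩
      · field_simp
      · field_simp
        linear_combination k2
    · refine ⟨s' / s, ?_, ?_⟩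
      · field_simp
        linear_combination -k2
      · field_simp
  have hl : l ≠ 0 := by
    rintro rfl
    rcases hrs' with h3 | h3
    · exact h3 (by rw [hl1, zero_mul])
    · exact h3 (by rw [hl2, zero_mul])
  refine ⟨t' * l ^ 2 / t, div_ne_zero (mul_ne_zero ht' (pow_ne_zero 2 hl)) ht, ?_⟩
  rw [e, e', hl1, hl2]
  funext i
  fin_cases i
  · simp [zz]
    field_simp
  · simp [zz]
    field_simp
  · simp [zz]
    field_simp

end ISV

theorem isv_thm : ISVStmt := by
  intro K _ h2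
  refine ⟨?_, ISV.bil_zz h2, ISV.par h2, ISV.prop h2⟩
  intro r s
  rw [ISV.bil_zz h2]
  ring

end Pool.AVS
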