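import Pool.Agent.H14.AVS.S3

/-!
# AVS, module LLG: not more pairs, over `F(t)`
-/

set_option autoImplicit false

namespace Pool.AVS

open Polynomial Matrix Pool.AVR

namespace LLG

theorem ia_map {R S : Type} [CommRing R] [CommRing S] (f : R →+* S)
    (B : Matrix (Fin 3) (Fin 3) R) : ia (B.map f) = f (ia B) := by
  have h2 : f 2 = 2 := map_ofNat f 2
  simp [ia, Matrix.map_apply, h2]

theorem ib_map {R S : Type} [CommRing R] [CommRing S] (f : R →+* S)
    (B : Matrix (Fin 3) (Fin 3) R) : ib (B.map f) = f (ib B) := by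
  have h2 : f 2 = 2 := map_ofNat f 2
  simp [ib, Matrix.map_apply, h2]

theorem ic_map {R S : Type} [CommRing R] [CommRing S] (f : R →+* S)
    (B : Matrix (Fin 3) (Fin 3) R) : ic (B.map f) = f (ic B) := by
  unfold ic
  rw [RingHom.map_det]
  rfl

end LLG

theorem llg_thm (hLCL : LCLStmt) (hTRA : TRAStmt) : LLGStmt := by
  intro F _ I ϖ L _ O ι hC N a b c hd B hB ha hb hc M g z w hK hE
  have hloc : Loc L O (ι ϖ) := hC.loc
  obtain ⟨t1, t2⟩ := hTRA F I ϖ L O ι hC
  refine hLCL L O (ι ϖ) hloc N a b c hd (B.map ι) ?_ ?_ ?_ ?_ M (fun i => (g i).map ι)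
    (fun i j => ι (z i j)) (fun i => ι (w i)) ?_ ?_
  · rw [← Matrix.transpose_map, hB]
  · rw [LLG.ia_map, ha]
  · rw [LLG.ib_map, hb]
  · rw [LLG.ic_map, hc]
  · intro i
    exact (t1 B (g i) (z i) (w i)).1 (hK i)
  · intro i j hij h
    exact hE i j hij ((t2 (g i) (g j) (z i) (z j) (w i) (w j) (hK i).1).2 h)

end Pool.AVS
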